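import Mathlib
import Pool.Agent.Lib.helper22.MatOr

namespace Pool.Agent.Results.MP_1bbcfd_lc.Oracle

open Set Pool.Agent.Lib.helper22.MatOr

inductive Alg (S : Type)
  | ret (X : Finset S)
  | ask (first : Bool) (A : Finset S) (yes no : Alg S)

open Classical in
noncomputable def run {S : Type} (M N : Matroid S) : Alg S → Finset S × ℕ
  | .ret X => (X, 0)
  | .ask b A y n => if (if b then M else N).Indep A then ((run M N y).1, (run M N y).2 + 1)
      else ((run M N n).1, (run M N n).2 + 1)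

def Feas {S : Type} (M N : Matroid S) (k : ℕ) (X : Finset S) : Prop :=
  X.card = k ∧ ∃ B, M.IsBase B ∧ N.IsBase B ∧ (X : Set S) ⊆ B

theorem use {S : Type} (M N : Matroid S) (a : Alg S) : ∃ Q : Finset (Finset S),
    Q.card ≤ (run M N a).2 ∧ ∀ M' : Matroid S, (∀ A ∈ Q, M'.Indep A ↔ M.Indep A) →
      run M' N a = run M N a := by
  classical
  induction a with
  | ret X => exact ⟨∅, le_rfl, fun _ _ => rfl⟩
  | ask b A y n h1 h2 =>
    obtain ⟨Q, a1, a2⟩ := h1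
    obtain ⟨R, b1, b2⟩ := h2
    have e : ∀ (M' : Matroid S) (T : Finset (Finset S)), (∀ D ∈ insert A T, M'.Indep D ↔ M.Indep D) →
        ((if b then M' else N).Indep A ↔ (if b then M else N).Indep A) := fun M' T h => by
      cases b
      · rfl
      · exact h A (Finset.mem_insert_self _ _)
    by_cases c : (if b then M else N).Indep A
    · refine ⟨insert A Q, ?_, fun M' h => ?_⟩
      · rw [run, if_pos c]; exact (Finset.card_insert_le _ _).trans (Nat.succ_le_succ a1)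
      · rw [run, run, if_pos c, if_pos ((e M' Q h).2 c),
          a2 M' fun A hA => h A (Finset.mem_insert_of_mem hA)]
    · refine ⟨insert A R, ?_, fun M' h => ?_⟩
      · rw [run, if_neg c]; exact (Finset.card_insert_le _ _).trans (Nat.succ_le_succ b1)
      · rw [run, run, if_neg c, if_neg (mt (e M' R h).1 c),
          b2 M' fun A hA => h A (Finset.mem_insert_of_mem hA)]

variable {ι : Type} [Fintype ι]

def T (X : Set (ι × Bool)) : Prop := ∀ y, y ∈ X ↔ (y.1, !y.2) ∉ X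

def H (s : ℕ) : Set (Set (ι × Bool)) := {X | T X ∧ {i | (i, false) ∈ X}.ncard = s}

theorem tc {X : Set (ι × Bool)} (h : T X) : X.ncard = Fintype.card ι := by
  rw [← InjOn.ncard_image (f := Prod.fst), eq_univ_of_forall (s := Prod.fst '' X), ncard_univ,
    Nat.card_eq_fintype_card]
  · intro i
    by_cases c : (i, true) ∈ X
    · exact ⟨_, c, rfl⟩
    · exact ⟨(i, false), (h _).2 c, rfl⟩
  · rintro ⟨i, a⟩ h1 ⟨j, b⟩ h2 (rfl : i = j)
    have := (h _).1 h1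
    cases a <;> cases b <;> simp_all

theorem sparse (s : ℕ) : Sparse (H (ι := ι) s) := by
  rintro X ⟨h1, h2⟩ ⟨i, b⟩ he ⟨j, c⟩ hf ⟨h3, h4⟩
  have a1 := (h3 _).1 (.inl rfl)
  have a2 := not_not.1 (mt (h1 _).2 hf)
  obtain ⟨rfl, rfl⟩ : j = i ∧ (!c) = b := by
    by_contra k
    exact a1 (.inr ⟨a2, by simpa using k⟩)
  cases c
  · have : {i | (i, false) ∈ insert (j, false) (X \ {(j, !false)})} = insert j {i | (i, false) ∈ X} := by
      ext; simp
    rw [this, ncard_insert_of_notMem (s := {i | (i, false) ∈ X}) hf] at h4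
    omega
  · have : {i | (i, false) ∈ insert (j, true) (X \ {(j, !true)})} = {i | (i, false) ∈ X} \ {j} := by
      ext; simp
    rw [this, ← h2, ← ncard_sdiff_singleton_add_one (s := {i | (i, false) ∈ X}) he] at h4
    omega

def w : (ι × Bool) ⊕ (ι × Bool) → ℕ
  | .inl y => if y.2 then 2 else 3
  | .inr y => if y.2 then 0 else 2

theorem sm (f : (ι × Bool) ⊕ (ι × Bool) → ℕ) : ∑ y, f y = ∑ i, (f (.inl (i, true)) +
    f (.inl (i, false)) + (f (.inr (i, true)) + f (.inr (i, false)))) := by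
  simp [Fintype.sum_sum_type, Fintype.sum_prod_type, Finset.sum_add_distrib]

open Classical in
theorem bd (B : Set ((ι × Bool) ⊕ (ι × Bool))) (h1 : T (Sum.inr ⁻¹' B))
    (h2 : ∀ y, y ∈ B ↔ y.swap ∉ B) (Y : Finset ((ι × Bool) ⊕ (ι × Bool))) :
    let t := {i | (i, false) ∈ Sum.inl ⁻¹' B}.ncard
    ((Y : Set _) ⊆ B → ∑ y ∈ Y, w y ≤ 2 * Y.card + t ∧ ∑ y ∈ Y, w y + t ≤ 4 * Fintype.card ι) ∧
    ((∀ y, y ∈ Y ↔ y ∈ B ∧ w y ≠ 0) →
      ∑ y ∈ Y, w y + t = 4 * Fintype.card ι ∧ Y.card + t = 2 * Fintype.card ι) := by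
  intro t
  have e1 : t = ∑ i, if .inl (i, false) ∈ B then 1 else 0 := by
    rw [← Finset.card_filter, ← ncard_coe_finset]; simp [t]
  have e2 : ∑ y ∈ Y, w y = ∑ y, if y ∈ Y then w y else 0 := by simp
  have e3 : Y.card = ∑ y, if y ∈ Y then 1 else 0 := by simp
  have e4 : Fintype.card ι = ∑ i : ι, 1 := by simp
  rw [e1, e2, e3, e4, sm, sm]
  simp only [Finset.mul_sum, ← Finset.sum_add_distrib]
  have k : ∀ i, (.inl (i, false) ∈ B ↔ .inr (i, false) ∉ B) ∧ (.inl (i, true) ∈ B ↔ .inr (i, true) ∉ B)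
    ∧ (.inr (i, true) ∈ B ↔ .inr (i, false) ∉ B) := fun i => ⟨h2 _, h2 _, h1 (i, true)⟩
  refine ⟨fun h => ⟨Finset.sum_le_sum fun i _ => ?_, Finset.sum_le_sum fun i _ => ?_⟩,
    fun h => ⟨Finset.sum_congr rfl fun i _ => ?_, Finset.sum_congr rfl fun i _ => ?_⟩⟩
  iterate 2
    have := k i
    have := @h (.inl (i, true))
    have := @h (.inl (i, false))
    have := @h (.inr (i, true))
    have := @h (.inr (i, false))
    simp only [w, Finset.mem_coe] at *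
    grind
  all_goals
    have := k i
    simp only [h, w]
    grind

theorem result (A : ∀ (S : Type) [Fintype S], (S → ℕ) → ℕ → Alg S) (p : Polynomial ℕ) :
    ∃ (S : Type) (_ : Fintype S) (w : S → ℕ) (k : ℕ) (M N : Matroid S), (∀ e, w e ≤ 3) ∧
      M.E = univ ∧ N.E = univ ∧ (∃ X, Feas M N k X) ∧
      (p.eval (Fintype.card S) < (run M N (A S w k)).2 ∨ ¬ (Feas M N k (run M N (A S w k)).1 ∧
        ∀ X, Feas M N k X → ∑ e ∈ X, w e ≤ ∑ e ∈ (run M N (A S w k)).1, w e)) := by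
  classical
  obtain ⟨s, hs, s0⟩ := ((poly p 8).and (Filter.eventually_gt_atTop 0)).exists
  let ι := Fin s × Bool
  have ci : Fintype.card ι = 2 * s := by simp [ι, mul_comm]
  have t0 : T {y : ι × Bool | y.2 = true} := fun y => by simp
  have n0 : {y : ι × Bool | y.2 = true} ∉ H s := fun h => by simpa [s0.ne] using h.2
  obtain ⟨P, p1, p2⟩ := inv (fun y : ι × Bool => (y.1, !y.2)) (by simp) ⟨_, t0⟩
  obtain ⟨N, n1, n2⟩ := inv (Sum.swap : (ι × Bool) ⊕ (ι × Bool) → _) (by simp)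
    ⟨range .inl, by simp⟩
  have mk : ∀ G ⊆ H (ι := ι) s, ∃ M : Matroid ((ι × Bool) ⊕ (ι × Bool)), M.E = univ ∧ ∀ B,
      M.IsBase B ↔ ((Sum.inl ⁻¹' B).ncard = 2 * s ∧ Sum.inl ⁻¹' B ∉ G) ∧ T (Sum.inr ⁻¹' B) :=
    fun G hG => by
      obtain ⟨M, m1, m2⟩ := sp (2 * s) G (fun X a e b f c d => sparse s X (hG a) e b f c (hG d))
        ⟨_, (tc t0).trans ci, fun h => n0 (hG h)⟩
      exact ⟨M.sum P, by simp [m1, p1], fun B => by rw [Matroid.sum_isBase_iff, m2, p2]; rfl⟩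
  let B (X : Set (ι × Bool)) : Set ((ι × Bool) ⊕ (ι × Bool)) := {y | y.elim (· ∈ X) (· ∉ X)}
  have b1 : ∀ X, T X → T (Sum.inr ⁻¹' B X) := fun X h y => not_congr (h y)
  have b2 : ∀ X y, y ∈ B X ↔ y.swap ∉ B X := fun X y => by cases y <;> simp [B]
  let Y (X : Set (ι × Bool)) := Finset.univ.filter fun y => y ∈ B X ∧ w y ≠ 0
  have b3 := fun X h => (bd (B X) (b1 X h) (b2 X) (Y X)).2 (by simp [Y])
  obtain ⟨M, m1, m2⟩ := mk _ subset_rfl
  have w3 : ∀ e : (ι × Bool) ⊕ (ι × Bool), w e ≤ 3 := fun e => by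
    cases e <;> simp only [w] <;> split_ifs <;> omega
  by_contra! hc
  have f0 : ∃ X, Feas M N (3 * s) X := by
    obtain ⟨X, x1, x2⟩ := (Y {y | y.2 = true}).exists_subset_card_eq (n := 3 * s) (by
      have := (b3 _ t0).2
      simp only [B, preimage_ofPred_eq, Sum.elim_inl, mem_ofPred_eq, Bool.false_eq_true,
        ofPred_false, ncard_empty] at this
      omega)
    exact ⟨X, x2, B _, (m2 _).2 ⟨⟨(tc t0).trans ci, n0⟩, b1 _ t0⟩, (n2 _).2 (b2 _),
      fun y hy => (Finset.mem_filter.1 (x1 hy)).2.1⟩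
  obtain ⟨c1, ⟨c2, C, c3, c4, c5⟩, -⟩ := hc _ _ w (3 * s) M N w3 m1 n1 f0
  obtain ⟨Q, q1, q2⟩ := use M N (A _ w (3 * s))
  let Z (z : Fin s → Bool) : Set (ι × Bool) := {y | y.2 = (y.1.2 != z y.1.1)}
  have z1 : ∀ z, Z z ∈ H s := fun z => ⟨fun y => by simp [Z], by
    have : {i | (i, false) ∈ Z z} = range fun j => (j, z j) := by
      ext ⟨j, b⟩; simp [Z, ι]; grind
    rw [this, ncard_range_of_injective fun _ _ h => (Prod.mk.inj h).1]; simp⟩
  obtain ⟨z, hz⟩ : ∃ z, ∀ A ∈ Q, Sum.inl ⁻¹' (A : Set ((ι × Bool) ⊕ (ι × Bool))) ≠ Z z := by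
    by_contra! h
    choose f f1 f2 using h
    have := Finset.card_le_card_of_injOn (s := .univ) f (fun z _ => f1 z) fun z _ y _ e => by
      have : Z z = Z y := by rw [← f2 z, ← f2 y, e]
      funext j
      have := Set.ext_iff.1 this ((j, true), true)
      simp [Z] at this; grind
    have e : Fintype.card ((ι × Bool) ⊕ (ι × Bool)) = 8 * s := by simp [ci]; omega
    rw [e] at c1
    simp at this; omega
  obtain ⟨M', m3, m4⟩ := mk (H s \ {Z z}) sdiff_subset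
  have e := q2 M' fun A hA => by
    simp only [Matroid.indep_iff, m2, m4]
    refine ⟨fun ⟨D, ⟨⟨d1, d2⟩, d3⟩, d4⟩ => ?_, fun ⟨D, ⟨⟨d1, d2⟩, d3⟩, d4⟩ =>
      ⟨D, ⟨⟨d1, fun h => d2 h.1⟩, d3⟩, d4⟩⟩
    by_cases c : Sum.inl ⁻¹' D ∈ H s
    · have c6 : Sum.inl ⁻¹' D = Z z := by_contra fun h => d2 ⟨c, h⟩
      obtain ⟨e, e1, e2⟩ := exists_of_ssubset ((preimage_mono d4).ssubset_of_ne (c6 ▸ hz A hA))
      have e3 := (c.1 e).1 e1
      have : Sum.inl ⁻¹' insert (.inl (e.1, !e.2)) (D \ {.inl e}) =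
          insert (e.1, !e.2) (Sum.inl ⁻¹' D \ {e}) := by ext; simp
      refine ⟨insert (.inl (e.1, !e.2)) (D \ {.inl e}), ⟨?_, by simpa [T] using d3⟩,
        fun y hy => .inr ⟨d4 hy, fun h => e2 (by rwa [mem_preimage, ← h])⟩⟩
      rw [this]
      exact ⟨(swap_card e1 e3).trans d1, sparse s _ c _ e1 _ e3⟩
    · exact ⟨D, ⟨⟨d1, c⟩, d3⟩, d4⟩
  obtain ⟨y1, y2⟩ := b3 _ (z1 z).1
  have y3 : {i | (i, false) ∈ Sum.inl ⁻¹' B (Z z)}.ncard = s := (z1 z).2
  have f1 : Feas M' N (3 * s) (Y (Z z)) := ⟨by omega, B _, (m4 _).2 ⟨⟨(tc (z1 z).1).trans ci,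
    fun h => h.2 rfl⟩, b1 _ (z1 z).1⟩, (n2 _).2 (b2 _), fun y hy => (Finset.mem_filter.1 hy).2.1⟩
  have := (hc _ inferInstance w (3 * s) M' N w3 m3 n1 ⟨_, f1⟩).2.2 _ f1
  rw [e] at this
  obtain ⟨⟨-, g1⟩, g2⟩ := (m2 C).1 c3
  obtain ⟨g3, g4⟩ := (bd C g2 ((n2 C).1 c4) _).1 c5
  have g5 : {i | (i, false) ∈ Sum.inl ⁻¹' C}.ncard ≠ s := fun h => g1 ⟨fun y => by
    have := g2 y
    have := (n2 C).1 c4 (.inl y)
    have := (n2 C).1 c4 (.inl (y.1, !y.2))
    simp only [mem_preimage, Sum.swap_inl] at *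
    tauto, h⟩
  omega

end Pool.Agent.Results.MP_1bbcfd_lc.Oracle
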